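import Mathlib
import Pool.Agent.W495.NC.Hyp

/-!
# Anisotropy of the form over extensions of degree prime to `p`
-/

set_option autoImplicit false

namespace Pool.Agent.W782.NCVal

open IsDedekindDomain WithZero Module

/-- An extension of degree prime to the characteristic is separable. -/
theorem separable_of_degree (p : ℕ) [Fact p.Prime] (K L : Type) [Field K] [Field L] [CharP K p]
    [Algebra K L] [FiniteDimensional K L] (hn : ¬ p ∣ finrank K L) : Algebra.IsSeparable K L := by
  haveI : ExpChar K p := ExpChar.prime Fact.out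
  rw [isSeparable_iff_finInsepDegree_eq_one]
  obtain ⟨m, hm⟩ := finInsepDegree_eq_pow K L p
  have h := Field.finSepDegree_mul_finInsepDegree K L
  rcases m with _ | m
  · simpa using hm
  · exfalso
    apply hn
    rw [← h, hm, pow_succ]
    exact ⟨Field.finSepDegree K L * p ^ m, by ring⟩

/-- There is a discrete valuation on `L` with value at `t` prime to `p`. -/
theorem exists_val (p : ℕ) [Fact p.Prime] (k : Type) [Field k] [CharP k p] (L : Type) [Field L]
    [Algebra (RatFunc k) L] [FiniteDimensional (RatFunc k) L]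
    (hn : ¬ p ∣ finrank (RatFunc k) L) :
    ∃ (v : Valuation L ℤᵐ⁰) (e : ℕ), ¬ p ∣ e ∧
      v (algebraMap (RatFunc k) L RatFunc.X) = exp (-(e : ℤ)) := by
  classical
  haveI : CharP (RatFunc k) p := charP_of_injective_algebraMap (algebraMap k (RatFunc k)).injective p
  haveI : Algebra.IsSeparable (RatFunc k) L := separable_of_degree p _ _ hn
  letI : Algebra (Polynomial k) L :=
    ((algebraMap (RatFunc k) L).comp (algebraMap (Polynomial k) (RatFunc k))).toAlgebra
  haveI : IsScalarTower (Polynomial k) (RatFunc k) L := IsScalarTower.of_algebraMap_eq (fun _ => rfl)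
  haveI : Module.IsTorsionFree (Polynomial k) L := by
    rw [Module.isTorsionFree_iff_algebraMap_injective]
    exact (algebraMap (RatFunc k) L).injective.comp (IsFractionRing.injective (Polynomial k) (RatFunc k))
  let B := integralClosure (Polynomial k) L
  haveI : Module.IsTorsionFree (Polynomial k) B := Subalgebra.instIsTorsionFree B
  haveI : IsDedekindDomain B := integralClosure.isDedekindDomain (Polynomial k) (RatFunc k) L
  haveI : IsFractionRing B L :=
    integralClosure.isFractionRing_of_finite_extension (RatFunc k) L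
  haveI : Module.Finite (Polynomial k) B :=
    IsIntegralClosure.finite (Polynomial k) (RatFunc k) L B
  have hXp : Prime (Polynomial.X : Polynomial k) := Polynomial.prime_X
  have hX0 : (Ideal.span {(Polynomial.X : Polynomial k)}) ≠ ⊥ := by
    simpa using hXp.ne_zero
  haveI hXprime : (Ideal.span {(Polynomial.X : Polynomial k)}).IsPrime :=
    (Ideal.span_singleton_prime hXp.ne_zero).mpr hXp
  haveI hXmax : (Ideal.span {(Polynomial.X : Polynomial k)}).IsMaximal :=
    hXprime.isMaximal hX0
  have hsum := Ideal.sum_ramification_inertia B (RatFunc k) L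
    (p := Ideal.span {(Polynomial.X : Polynomial k)}) hX0
  obtain ⟨P, hP, hPe⟩ : ∃ P ∈ IsDedekindDomain.primesOverFinset (Ideal.span {(Polynomial.X : Polynomial k)}) B,
      ¬ p ∣ Ideal.ramificationIdx' (Ideal.span {(Polynomial.X : Polynomial k)}) P := by
    by_contra hcon
    push Not at hcon
    apply hn
    rw [← hsum]
    exact Finset.dvd_sum fun P hP => (hcon P hP).mul_right _
  rw [IsDedekindDomain.mem_primesOverFinset_iff hX0] at hP
  obtain ⟨hP1, hP2⟩ := hP
  have hP0 : P ≠ ⊥ := Ideal.ne_bot_of_liesOver_of_ne_bot hX0 P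
  let v0 : HeightOneSpectrum (Polynomial k) := ⟨Ideal.span {Polynomial.X}, hXprime, hX0⟩
  let w : HeightOneSpectrum B := ⟨P, hP1, hP0⟩
  haveI : w.asIdeal.LiesOver v0.asIdeal := hP2
  refine ⟨w.valuation L, Ideal.ramificationIdx' (Ideal.span {(Polynomial.X : Polynomial k)}) P, hPe, ?_⟩
  have h1 := HeightOneSpectrum.valuation_liesOver (K := RatFunc k) L v0 w RatFunc.X
  rw [← h1]
  have h2 : v0.valuation (RatFunc k) RatFunc.X = exp (-1 : ℤ) := by
    have h3 : v0.valuation (RatFunc k) (algebraMap (Polynomial k) (RatFunc k) Polynomial.X) =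
        v0.intValuation Polynomial.X :=
      HeightOneSpectrum.valuation_of_algebraMap (K := RatFunc k) v0 Polynomial.X
    rw [RatFunc.algebraMap_X] at h3
    rw [h3]
    exact HeightOneSpectrum.intValuation_singleton v0 Polynomial.X_ne_zero rfl
  rw [h2]
  show exp (-1 : ℤ) ^ (Ideal.ramificationIdx' (Ideal.span {(Polynomial.X : Polynomial k)}) P) = _
  rw [← exp_nsmul]
  simp

/-- The valuation argument. -/
theorem key (p : ℕ) [Fact p.Prime] (L : Type) [Field L] (v : Valuation L ℤᵐ⁰) (e : ℕ)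
    (he : ¬ p ∣ e) (t : L) (ht : v t = exp (-(e : ℤ))) (x : Fin p → L)
    (hx : ∑ i : Fin p, t ^ (i : ℕ) * x i ^ p + t ^ p * ∑ i : Fin p, x i ^ (p - 1) * x (i + 1) = 0) :
    x = 0 := by
  classical
  have hp : p.Prime := Fact.out
  have hp1 : 1 ≤ p := hp.one_lt.le
  haveI : Nonempty (Fin p) := ⟨⟨0, hp.pos⟩⟩
  have he0 : 0 < e := Nat.pos_of_ne_zero (fun h => he (h ▸ dvd_zero p))
  have ht0 : v t ≠ 0 := by rw [ht]; exact exp_ne_zero
  by_contra hne
  obtain ⟨i0, hi0⟩ : ∃ i, x i ≠ 0 := by
    by_contra hcon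
    push Not at hcon
    exact hne (funext hcon)
  obtain ⟨l, hl⟩ := Finite.exists_max (fun i => v (x i))
  have hl0 : v (x l) ≠ 0 := by
    intro h0
    have := hl i0
    rw [h0] at this
    exact hi0 ((Valuation.zero_iff v).mp (le_antisymm this zero_le))
  obtain ⟨j, hj⟩ := Finite.exists_max (fun i : Fin p => v (t ^ (i : ℕ) * x i ^ p))
  have hva : ∀ i : Fin p, v (t ^ (i : ℕ) * x i ^ p) = v t ^ (i : ℕ) * v (x i) ^ p := by
    intro i; rw [map_mul, map_pow, map_pow]
  have hj0 : v (t ^ (j : ℕ) * x j ^ p) ≠ 0 := by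
    intro h0
    have := hj i0
    rw [h0] at this
    have h1 := le_antisymm this zero_le
    rw [hva] at h1
    exact (mul_ne_zero (pow_ne_zero _ ht0) (pow_ne_zero _ ((Valuation.ne_zero_iff v).mpr hi0))) h1
  have hdist : ∀ i : Fin p, i ≠ j → v (t ^ (i : ℕ) * x i ^ p) < v (t ^ (j : ℕ) * x j ^ p) := by
    intro i hij
    refine lt_of_le_of_ne (hj i) ?_
    intro heq
    have hi : v (t ^ (i : ℕ) * x i ^ p) ≠ 0 := by rw [heq]; exact hj0
    rw [hva] at hi
    have hj' := hj0
    rw [hva] at hj'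
    have hxi : v (x i) ≠ 0 := by
      intro h; apply hi; rw [h, zero_pow hp.pos.ne', mul_zero]
    have hxj : v (x j) ≠ 0 := by
      intro h; apply hj'; rw [h, zero_pow hp.pos.ne', mul_zero]
    rw [hva, hva, ht, ← exp_log hxi, ← exp_log hxj, ← exp_nsmul, ← exp_nsmul, ← exp_nsmul,
      ← exp_nsmul, ← exp_add, ← exp_add, exp_inj] at heq
    simp only [nsmul_eq_mul] at heq
    have h2 : (p : ℤ) ∣ (e : ℤ) * ((i : ℤ) - (j : ℤ)) :=
      ⟨log (v (x i)) - log (v (x j)), by push_cast at heq ⊢; linarith⟩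
    have hpZ : Prime (p : ℤ) := Nat.prime_iff_prime_int.mp hp
    rcases hpZ.dvd_or_dvd h2 with h3 | h3
    · exact he (by exact_mod_cast h3)
    · have h4 : ((i : ℤ) - (j : ℤ)) = 0 := by
        apply Int.eq_zero_of_abs_lt_dvd h3
        have := i.2
        have := j.2
        rw [abs_lt]
        constructor <;> omega
      apply hij
      apply Fin.ext
      omega
  have hsum1 : v (∑ i ∈ Finset.univ.erase j, t ^ (i : ℕ) * x i ^ p) < v (t ^ (j : ℕ) * x j ^ p) :=
    Valuation.map_sum_lt v hj0 fun i hi => hdist i (Finset.ne_of_mem_erase hi)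
  have hsum2 : v (∑ i : Fin p, t ^ p * (x i ^ (p - 1) * x (i + 1))) < v (t ^ (j : ℕ) * x j ^ p) := by
    refine Valuation.map_sum_lt v hj0 fun i _ => ?_
    refine lt_of_lt_of_le ?_ (hj l)
    rw [hva, map_mul, map_mul, map_pow, map_pow]
    have h1 : v (x i) ^ (p - 1) * v (x (i + 1)) ≤ v (x l) ^ p := by
      calc v (x i) ^ (p - 1) * v (x (i + 1)) ≤ v (x l) ^ (p - 1) * v (x l) :=
            mul_le_mul' (pow_le_pow_left' (hl i) _) (hl (i + 1))
        _ = v (x l) ^ p := by rw [← pow_succ, Nat.sub_add_cancel hp1]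
    refine lt_of_le_of_lt (mul_le_mul' le_rfl h1) ?_
    have h2 : v t ^ p < v t ^ (l : ℕ) := by
      rw [ht, ← exp_nsmul, ← exp_nsmul, exp_lt_exp]
      simp only [nsmul_eq_mul]
      have h3 : ((l : ℕ) : ℤ) < (p : ℤ) := by exact_mod_cast l.2
      have h4 : (0 : ℤ) < (e : ℤ) := by exact_mod_cast he0
      nlinarith
    exact mul_lt_mul_of_pos_right h2 (zero_lt_iff.mpr (pow_ne_zero _ hl0))
  have htot : t ^ (j : ℕ) * x j ^ p =
      -(∑ i ∈ Finset.univ.erase j, t ^ (i : ℕ) * x i ^ p
        + ∑ i : Fin p, t ^ p * (x i ^ (p - 1) * x (i + 1))) := by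
    rw [← Finset.mul_sum]
    rw [← Finset.add_sum_erase _ _ (Finset.mem_univ j)] at hx
    linear_combination hx
  have hlt := Valuation.map_add_lt v hsum1 hsum2
  rw [← Valuation.map_neg, ← htot] at hlt
  exact lt_irrefl _ hlt

theorem anisotropic : Pool.Agent.W495.NC.Anisotropic := by
  intro p _ k _ _ L _ _ _ x hn hx
  obtain ⟨v, e, he, hv⟩ := exists_val p k L hn
  refine key p L v e he _ hv x ?_
  simpa [Pool.Agent.W495.NC.form, map_sum, MvPolynomial.aeval_C] using hx

end Pool.Agent.W782.NCVal
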